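import Mathlib

/-!
# MP_ebd9af_co : arc bijections of strong tournaments mapping 4-circuits into 4-circuits

The question (Q1): if `T₁`, `T₂` are strong tournaments and `φ : A₁ → A₂` is a bijection of the arc
sets which maps 4-circuits into 4-circuits, must `T₁` and `T₂` be isomorphic or converse?

The answer is no, already on five vertices (and five is least possible).  Let `T₁` be the tournament
on `0,…,4` with arcs `i → i+1` and `j → i` for `j ≥ i+2`; it is strong and its only 4-circuits are
`0123` and `1234`.  Let `T₂` arise by reversing the arc between `0` and `2`.  The bijection which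
sends the arc of `T₁` on a pair of vertices to the arc of `T₂` on the same pair maps the two
4-circuits of `T₁` to 4-circuits of `T₂`, and `T₂` has a third 4-circuit `0234`.
-/

namespace Pool.Agent.Results.MP_ebd9af_co.FiveVertices

/-- A tournament on the vertex type `V`: a loopless relation `arc` such that every two distinct
vertices are joined by exactly one arc. -/
structure Tournament (V : Type) where
  /-- `arc u v` : there is an arc from `u` to `v`. -/
  arc : V → V → Prop
  irrefl : ∀ v, ¬ arc v v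
  exactlyOne : ∀ u v, u ≠ v → (arc u v ↔ ¬ arc v u)

variable {V V₁ V₂ : Type}

/-- A tournament is strong if for any two vertices there is a directed path from the first to the
second. -/
def Tournament.Strong (T : Tournament V) : Prop :=
  ∀ u v, Relation.ReflTransGen T.arc u v

/-- The arc set of a tournament. -/
def Tournament.Arcs (T : Tournament V) : Set (V × V) := {p | T.arc p.1 p.2}

/-- `C` is (the arc set of) a `k`-circuit of `T`: there are distinct vertices
`v 0, …, v (k-1)` with arcs `v i → v (i+1)` (indices mod `k`), and `C` is the set of these arcs. -/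
def Tournament.IsCircuit (T : Tournament V) (k : ℕ) (C : Set (V × V)) : Prop :=
  ∃ v : ZMod k → V, Function.Injective v ∧ (∀ i, T.arc (v i) (v (i + 1))) ∧
    C = Set.range (fun i => (v i, v (i + 1)))

/-- The converse tournament: every arc is reversed. -/
def Tournament.converse (T : Tournament V) : Tournament V where
  arc u v := T.arc v u
  irrefl v := T.irrefl v
  exactlyOne u v h := T.exactlyOne v u h.symm

/-- Isomorphism of tournaments. -/
def Isomorphic (T₁ : Tournament V₁) (T₂ : Tournament V₂) : Prop :=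
  ∃ e : V₁ ≃ V₂, ∀ u v, T₁.arc u v ↔ T₂.arc (e u) (e v)

/-- `T₁` and `T₂` are isomorphic or converse: `T₂ ≅ T₁` or `T₂ ≅ T₁ᶜ`. -/
def IsoOrConverse (T₁ : Tournament V₁) (T₂ : Tournament V₂) : Prop :=
  Isomorphic T₂ T₁ ∨ Isomorphic T₂ T₁.converse

/-- The bijection `φ : A₁ → A₂` maps `k`-circuits into `k`-circuits: for every `k`-circuit `C` of
`T₁`, the image `φ(C)` is the arc set of a `k`-circuit of `T₂`. -/
def MapsCircuits (T₁ : Tournament V₁) (T₂ : Tournament V₂) (φ : T₁.Arcs ≃ T₂.Arcs) (k : ℕ) :
    Prop :=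
  ∀ C : Set (V₁ × V₁), T₁.IsCircuit k C →
    T₂.IsCircuit k {q | ∃ p : T₁.Arcs, (p : V₁ × V₁) ∈ C ∧ (φ p : V₂ × V₂) = q}

/-! ### The two tournaments -/

/-- Boolean arc relation of `T₁`. -/
def a1 (i j : Fin 5) : Bool := (j.val == i.val + 1) || decide (j.val + 2 ≤ i.val)

/-- Boolean arc relation of `T₂`. -/
def a2 (i j : Fin 5) : Bool :=
  (a1 i j && !(i == 2 && j == 0)) || (i == 0 && j == 2)

/-- The tournament `T₁`. -/
def T1 : Tournament (Fin 5) where
  arc i j := a1 i j = true
  irrefl := by decide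
  exactlyOne := by decide

/-- The tournament `T₂`. -/
def T2 : Tournament (Fin 5) where
  arc i j := a2 i j = true
  irrefl := by decide
  exactlyOne := by decide

/-- a closed walk through all vertices gives strong connectivity -/
lemma strong_of_reach (T : Tournament (Fin 5)) (r : Fin 5 → Fin 5 → Prop)
    (hr : ∀ i j, r i j → Relation.ReflTransGen T.arc i j)
    (h : ∀ i j, ∃ a b c, r i a ∧ r a b ∧ r b c ∧ r c j) : T.Strong := by
  intro u v
  obtain ⟨a, b, c, h1, h2, h3, h4⟩ := h u v
  exact (hr _ _ h1).trans ((hr _ _ h2).trans ((hr _ _ h3).trans (hr _ _ h4)))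

lemma T1_strong : T1.Strong := by
  refine strong_of_reach T1 (fun i j => i = j ∨ a1 i j = true) ?_ (by decide)
  rintro i j (rfl | h)
  · exact Relation.ReflTransGen.refl
  · exact Relation.ReflTransGen.single h

lemma T2_strong : T2.Strong := by
  refine strong_of_reach T2 (fun i j => i = j ∨ a2 i j = true) ?_ (by decide)
  rintro i j (rfl | h)
  · exact Relation.ReflTransGen.refl
  · exact Relation.ReflTransGen.single h

/-- the reordering of a pair -/
def fwd (p : Fin 5 × Fin 5) : Fin 5 × Fin 5 := if p = (2, 0) then (0, 2) else p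

/-- the inverse reordering -/
def bwd (p : Fin 5 × Fin 5) : Fin 5 × Fin 5 := if p = (0, 2) then (2, 0) else p

/-- The arc bijection: the arc of `T₁` on a pair goes to the arc of `T₂` on the same pair. -/
def phi : T1.Arcs ≃ T2.Arcs where
  toFun p := ⟨fwd p.1, by
    have : ∀ x : Fin 5 × Fin 5, a1 x.1 x.2 = true → a2 (fwd x).1 (fwd x).2 = true := by decide
    exact this p.1 p.2⟩
  invFun p := ⟨bwd p.1, by
    have : ∀ x : Fin 5 × Fin 5, a2 x.1 x.2 = true → a1 (bwd x).1 (bwd x).2 = true := by decide
    exact this p.1 p.2⟩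
  left_inv p := by
    have : ∀ x : Fin 5 × Fin 5, a1 x.1 x.2 = true → bwd (fwd x) = x := by decide
    exact Subtype.ext (this p.1 p.2)
  right_inv p := by
    have : ∀ x : Fin 5 × Fin 5, a2 x.1 x.2 = true → fwd (bwd x) = x := by decide
    exact Subtype.ext (this p.1 p.2)

/-- no 4-circuit of `T₁` uses the arc `2 → 0` -/
lemma no_arc_20 : ∀ a b c d : Fin 5, a ≠ c → b ≠ d → a1 a b = true → a1 b c = true →
    a1 c d = true → a1 d a = true → ¬ (a = 2 ∧ b = 0) := by decide

lemma phi_maps : MapsCircuits T1 T2 phi 4 := by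
  rintro C ⟨v, hv, harc, rfl⟩
  have key : ∀ i : ZMod 4, (v i, v (i + 1)) ≠ ((2, 0) : Fin 5 × Fin 5) := by
    intro i
    have h4 : (i + 1 + 1 + 1 + 1 : ZMod 4) = i := by
      revert i; decide
    have n1 : v i ≠ v (i + 1 + 1) := by
      intro h
      have := hv h
      revert this
      clear h h4
      revert i; decide
    have n2 : v (i + 1) ≠ v (i + 1 + 1 + 1) := by
      intro h
      have := hv h
      revert this
      clear h h4 n1
      revert i; decide
    have h3 := harc (i + 1 + 1 + 1)
    rw [h4] at h3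
    intro h20
    exact no_arc_20 _ _ _ _ n1 n2 (harc i) (harc (i + 1)) (harc (i + 1 + 1)) h3
      ⟨congrArg Prod.fst h20, congrArg Prod.snd h20⟩
  have hf : ∀ i : ZMod 4, fwd (v i, v (i + 1)) = (v i, v (i + 1)) := by
    intro i
    unfold fwd
    rw [if_neg (key i)]
  have hmem : ∀ i : ZMod 4, a2 (v i) (v (i + 1)) = true := by
    intro i
    have := (phi ⟨(v i, v (i + 1)), harc i⟩).2
    change a2 (fwd (v i, v (i + 1))).1 (fwd (v i, v (i + 1))).2 = true at this
    rwa [hf i] at this
  refine ⟨v, hv, hmem, ?_⟩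
  ext q
  simp only [Set.mem_ofPred_eq, Set.mem_range]
  constructor
  · rintro ⟨p, ⟨i, hi⟩, rfl⟩
    refine ⟨i, ?_⟩
    have : (phi p : Fin 5 × Fin 5) = fwd p.1 := rfl
    rw [this, ← hi, hf i]
  · rintro ⟨i, rfl⟩
    refine ⟨⟨(v i, v (i + 1)), harc i⟩, ⟨i, rfl⟩, ?_⟩
    exact hf i

/-- Injective maps `Fin 5 → Fin 5` given by values. -/
lemma not_iso (b : Fin 5 → Fin 5 → Bool)
    (h : ∀ v0 v1 v2 v3 v4 : Fin 5, v0 ≠ v1 → v0 ≠ v2 → v0 ≠ v3 → v0 ≠ v4 → v1 ≠ v2 → v1 ≠ v3 →
      v1 ≠ v4 → v2 ≠ v3 → v2 ≠ v4 → v3 ≠ v4 →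
      ¬ (b v0 v1 = a2 0 1 ∧ b v0 v2 = a2 0 2 ∧ b v0 v3 = a2 0 3 ∧ b v0 v4 = a2 0 4 ∧
         b v1 v2 = a2 1 2 ∧ b v1 v3 = a2 1 3 ∧ b v1 v4 = a2 1 4 ∧
         b v2 v3 = a2 2 3 ∧ b v2 v4 = a2 2 4 ∧ b v3 v4 = a2 3 4)) :
    ¬ ∃ e : Fin 5 ≃ Fin 5, ∀ u v, (a2 u v = true) ↔ (b (e u) (e v) = true) := by
  rintro ⟨e, he⟩
  have he' : ∀ u v, b (e u) (e v) = a2 u v := by
    intro u v
    have := he u v
    cases h1 : a2 u v <;> cases h2 : b (e u) (e v) <;> simp_all
  have hne : ∀ u v : Fin 5, u ≠ v → e u ≠ e v := fun u v huv h => huv (e.injective h)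
  exact h (e 0) (e 1) (e 2) (e 3) (e 4) (hne _ _ (by decide)) (hne _ _ (by decide))
    (hne _ _ (by decide)) (hne _ _ (by decide)) (hne _ _ (by decide)) (hne _ _ (by decide))
    (hne _ _ (by decide)) (hne _ _ (by decide)) (hne _ _ (by decide)) (hne _ _ (by decide))
    ⟨he' _ _, he' _ _, he' _ _, he' _ _, he' _ _, he' _ _, he' _ _, he' _ _, he' _ _, he' _ _⟩

set_option maxRecDepth 100000 in
lemma T2_not_iso_T1 : ¬ Isomorphic T2 T1 := by
  have := not_iso a1 (by decide +kernel)
  exact this

set_option maxRecDepth 100000 in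
lemma T2_not_iso_T1c : ¬ Isomorphic T2 T1.converse := by
  have := not_iso (fun i j => a1 j i) (by decide +kernel)
  exact this

/-! ### At most four vertices -/

/-- In a strong tournament every vertex set closed under out-neighbours that is nonempty is
everything. -/
lemma closed_all {n : ℕ} (T : Tournament (Fin n)) (hT : T.Strong) (S : Finset (Fin n))
    (hne : S.Nonempty) (hcl : ∀ u ∈ S, ∀ v, T.arc u v → v ∈ S) : S = Finset.univ := by
  obtain ⟨u, hu⟩ := hne
  ext v
  simp only [Finset.mem_univ, iff_true]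
  have h := hT u v
  induction h with
  | refl => exact hu
  | tail _ h2 ih => exact hcl _ ih _ h2

/-- Boolean version of a tournament on `Fin n`. -/
noncomputable def toBool {n : ℕ} (T : Tournament (Fin n)) : Fin n → Fin n → Bool :=
  fun i j => by classical exact decide (T.arc i j)

lemma toBool_iff {n : ℕ} (T : Tournament (Fin n)) (i j : Fin n) :
    toBool T i j = true ↔ T.arc i j := by
  classical
  unfold toBool
  simp

lemma toBool_self {n : ℕ} (T : Tournament (Fin n)) (i : Fin n) : toBool T i i = false := by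
  have := T.irrefl i
  rw [← toBool_iff] at this
  simpa using this

lemma toBool_swap {n : ℕ} (T : Tournament (Fin n)) (i j : Fin n) (h : i ≠ j) :
    toBool T i j = !(toBool T j i) := by
  have h1 := T.exactlyOne i j h
  rw [← toBool_iff, ← toBool_iff] at h1
  cases h2 : toBool T i j <;> cases h3 : toBool T j i <;> simp_all

/-- the Boolean relation on four vertices with given six upper entries -/
def mk4 (x01 x02 x03 x12 x13 x23 : Bool) : Fin 4 → Fin 4 → Bool :=
  fun i j => match i.val, j.val with
    | 0, 1 => x01 | 1, 0 => !x01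
    | 0, 2 => x02 | 2, 0 => !x02
    | 0, 3 => x03 | 3, 0 => !x03
    | 1, 2 => x12 | 2, 1 => !x12
    | 1, 3 => x13 | 3, 1 => !x13
    | 2, 3 => x23 | 3, 2 => !x23
    | _, _ => false

/-- the Boolean relation on three vertices with given three upper entries -/
def mk3 (x01 x02 x12 : Bool) : Fin 3 → Fin 3 → Bool :=
  fun i j => match i.val, j.val with
    | 0, 1 => x01 | 1, 0 => !x01
    | 0, 2 => x02 | 2, 0 => !x02
    | 1, 2 => x12 | 2, 1 => !x12
    | _, _ => false

/-- the cut condition -/
def Cut {n : ℕ} (b : Fin n → Fin n → Bool) : Prop :=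
  ∀ S : Finset (Fin n), S.Nonempty → (∀ u ∈ S, ∀ v, b u v = true → v ∈ S) → S = Finset.univ

instance {n : ℕ} (b : Fin n → Fin n → Bool) : Decidable (Cut b) := by
  unfold Cut; infer_instance

lemma cut_of_strong {n : ℕ} (T : Tournament (Fin n)) (hT : T.Strong) : Cut (toBool T) := by
  intro S hne hcl
  refine closed_all T hT S hne ?_
  intro u hu v huv
  exact hcl u hu v ((toBool_iff T u v).2 huv)

/-- standard strong tournament on four vertices -/
def std4 : Fin 4 → Fin 4 → Bool := mk4 true false false true false true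

/-- standard strong tournament on three vertices -/
def std3 : Fin 3 → Fin 3 → Bool := mk3 true false true

set_option maxRecDepth 100000 in
lemma strong4 : ∀ x01 x02 x03 x12 x13 x23 : Bool, Cut (mk4 x01 x02 x03 x12 x13 x23) →
    ∃ e : Equiv.Perm (Fin 4), ∀ i j, mk4 x01 x02 x03 x12 x13 x23 (e i) (e j) = std4 i j := by
  decide +kernel

set_option maxRecDepth 100000 in
lemma strong3 : ∀ x01 x02 x12 : Bool, Cut (mk3 x01 x02 x12) →
    ∃ e : Equiv.Perm (Fin 3), ∀ i j, mk3 x01 x02 x12 (e i) (e j) = std3 i j := by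
  decide +kernel

lemma eq_mk4 (T : Tournament (Fin 4)) :
    toBool T = mk4 (toBool T 0 1) (toBool T 0 2) (toBool T 0 3) (toBool T 1 2) (toBool T 1 3)
      (toBool T 2 3) := by
  funext i j
  fin_cases i <;> fin_cases j <;>
    first
      | rfl
      | exact toBool_self T _
      | exact toBool_swap T _ _ (by decide)

lemma eq_mk3 (T : Tournament (Fin 3)) :
    toBool T = mk3 (toBool T 0 1) (toBool T 0 2) (toBool T 1 2) := by
  funext i j
  fin_cases i <;> fin_cases j <;>
    first
      | rfl
      | exact toBool_self T _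
      | exact toBool_swap T _ _ (by decide)

lemma iso_of_std {n : ℕ} (s : Fin n → Fin n → Bool) (T₁ T₂ : Tournament (Fin n))
    (h1 : ∃ e : Equiv.Perm (Fin n), ∀ i j, toBool T₁ (e i) (e j) = s i j)
    (h2 : ∃ e : Equiv.Perm (Fin n), ∀ i j, toBool T₂ (e i) (e j) = s i j) :
    Isomorphic T₁ T₂ := by
  obtain ⟨e, he⟩ := h1
  obtain ⟨f, hf⟩ := h2
  refine ⟨e.symm.trans f, fun u v => ?_⟩
  rw [← toBool_iff, ← toBool_iff]
  have a := he (e.symm u) (e.symm v)
  have b := hf (e.symm u) (e.symm v)
  simp only [Equiv.apply_symm_apply] at a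
  simp only [Equiv.trans_apply]
  rw [a, b]

/-- Two strong tournaments on at most four vertices (same number) are isomorphic. -/
lemma small (n : ℕ) (hn : n ≤ 4) (T₁ T₂ : Tournament (Fin n)) (h1 : T₁.Strong) (h2 : T₂.Strong) :
    Isomorphic T₁ T₂ := by
  interval_cases n
  · exact ⟨Equiv.refl _, fun u => u.elim0⟩
  · refine ⟨Equiv.refl _, fun u v => ?_⟩
    have : u = v := Subsingleton.elim _ _
    subst this
    exact ⟨fun h => absurd h (T₁.irrefl u), fun h => absurd h (T₂.irrefl _)⟩
  · exfalso
    rcases Classical.em (T₁.arc 0 1) with h | h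
    · have hno : ¬ T₁.arc 1 0 := (T₁.exactlyOne 0 1 (by decide)).1 h
      have := closed_all T₁ h1 {1} ⟨1, by simp⟩ (by
        intro u hu v huv
        simp only [Finset.mem_singleton] at hu ⊢
        subst hu
        by_contra hv
        have : v = 0 := by omega
        subst this
        exact hno huv)
      revert this
      decide
    · have := closed_all T₁ h1 {0} ⟨0, by simp⟩ (by
        intro u hu v huv
        simp only [Finset.mem_singleton] at hu ⊢
        subst hu
        by_contra hv
        have : v = 1 := by omega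
        subst this
        exact h huv)
      revert this
      decide
  · refine iso_of_std std3 T₁ T₂ ?_ ?_
    · rw [eq_mk3 T₁]
      exact strong3 _ _ _ (by rw [← eq_mk3 T₁]; exact cut_of_strong T₁ h1)
    · rw [eq_mk3 T₂]
      exact strong3 _ _ _ (by rw [← eq_mk3 T₂]; exact cut_of_strong T₂ h2)
  · refine iso_of_std std4 T₁ T₂ ?_ ?_
    · rw [eq_mk4 T₁]
      exact strong4 _ _ _ _ _ _ (by rw [← eq_mk4 T₁]; exact cut_of_strong T₁ h1)
    · rw [eq_mk4 T₂]
      exact strong4 _ _ _ _ _ _ (by rw [← eq_mk4 T₂]; exact cut_of_strong T₂ h2)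

/-- **Answer to Q1: no.**  There are strong tournaments `T₁`, `T₂` on five vertices and a bijection
`φ` of their arc sets which maps 4-circuits into 4-circuits, while `T₁` and `T₂` are not isomorphic
or converse.  Moreover five vertices is the least possible: for `n ≤ 4` any two strong tournaments
on `n` vertices are isomorphic. -/
theorem result :
    (∃ (T₁ T₂ : Tournament (Fin 5)), T₁.Strong ∧ T₂.Strong ∧
      (∃ φ : T₁.Arcs ≃ T₂.Arcs, MapsCircuits T₁ T₂ φ 4) ∧ ¬ IsoOrConverse T₁ T₂) ∧
    (∀ n ≤ 4, ∀ T₁ T₂ : Tournament (Fin n), T₁.Strong → T₂.Strong → Isomorphic T₁ T₂) := by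
  refine ⟨⟨T1, T2, T1_strong, T2_strong, ⟨phi, phi_maps⟩, ?_⟩, small⟩
  rintro (h | h)
  · exact T2_not_iso_T1 h
  · exact T2_not_iso_T1c h

end Pool.Agent.Results.MP_ebd9af_co.FiveVertices
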